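import Pool.Agent.Run7.h549.Cv4

set_option maxHeartbeats 400000

namespace Pool.Agent.Results.MP_cbedb1_nt.SelfConvolution

open Finset

/-- `a k = C(6k,3k) C(3k,k)`. -/
def a (k : ℕ) : ℕ := Nat.choose (6 * k) (3 * k) * Nat.choose (3 * k) k

/-- The self-convolution `S n = ∑ a j * a (n - j)`, `0 ≤ j ≤ n`. -/
def S (n : ℕ) : ℕ := ∑ j ∈ range (n + 1), a j * a (n - j)

/-- For every positive integer `n`, the number `8 (2n - 1) C(3n,n)` divides `S n`. -/
theorem _root_.Pool.Agent.Results.MP_cbedb1_nt.SelfConvolution.result :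
    ∀ n : ℕ, 1 ≤ n → 8 * (2 * n - 1) * Nat.choose (3 * n) n ∣ S n := by
  intro n hn
  exact Run7.h549.sun_divisibility n hn

end Pool.Agent.Results.MP_cbedb1_nt.SelfConvolution
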